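import Mathlib

/-!
# Variance of an average of characters with a common mean, Chebyshev
-/

set_option autoImplicit false

open MeasureTheory Finset

namespace Pool.Agent.Helper50.MX

local instance : Fact (0 < (1 : ℝ)) := ⟨one_pos⟩

variable {ι : Type*}

/-- average of the characters `n i`, `i ∈ F` -/
noncomputable def av (F : Finset ι) (n : ι → ℤ) (x : AddCircle (1 : ℝ)) : ℂ :=
  (F.card : ℂ)⁻¹ * ∑ i ∈ F, (fourier (n i) x : ℂ)

theorem continuous_av (F : Finset ι) (n : ι → ℤ) : Continuous (av F n) := by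
  unfold av
  fun_prop

theorem norm_av_le (F : Finset ι) (n : ι → ℤ) (x : AddCircle (1 : ℝ)) : ‖av F n x‖ ≤ 1 := by
  unfold av
  rw [norm_mul, norm_inv, Complex.norm_natCast]
  have h : ‖∑ i ∈ F, (fourier (n i) x : ℂ)‖ ≤ F.card := by
    refine (norm_sum_le _ _).trans ?_
    refine (sum_le_card_nsmul _ _ 1 fun i _ => ?_).trans (by simp)
    simp [fourier_apply]
  rcases Nat.eq_zero_or_pos F.card with h0 | h0
  · rw [h0]; simp
  · have : (0 : ℝ) < F.card := by exact_mod_cast h0
    rw [inv_mul_le_iff₀ this, mul_one]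
    exact h

theorem integral_norm_sq (μ : Measure (AddCircle (1 : ℝ))) [IsProbabilityMeasure μ]
    (F : Finset ι) (hF : F.Nonempty) (n : ι → ℤ) (c : ℂ) (hc : c ≠ 0)
    (hn : ∀ i ∈ F, ∫ x, (fourier (n i) x : ℂ) ∂μ = c) :
    ((∫ x, ‖av F n x / c - 1‖ ^ 2 ∂μ : ℝ) : ℂ) =
      ((F.card : ℂ) ^ 2)⁻¹ * (∑ i ∈ F, ∑ j ∈ F, ∫ x, (fourier (n i - n j) x : ℂ) ∂μ) /
        ((‖c‖ ^ 2 : ℝ) : ℂ) - 1 := by
  have hint : ∀ m : ℤ, Integrable (fun x : AddCircle (1 : ℝ) => (fourier m x : ℂ)) μ := by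
    intro m
    refine Integrable.of_bound (by fun_prop) 1 (Filter.Eventually.of_forall fun x => ?_)
    simp [fourier_apply]
  have hcard : (F.card : ℂ) ≠ 0 := by
    exact_mod_cast (card_pos.2 hF).ne'
  have hA : ∫ x, av F n x ∂μ = c := by
    unfold av
    rw [integral_const_mul, integral_finset_sum _ fun i _ => hint (n i)]
    rw [sum_congr rfl hn, sum_const, nsmul_eq_mul]
    field_simp
  have hcn : ((‖c‖ ^ 2 : ℝ) : ℂ) ≠ 0 := by
    exact_mod_cast (by positivity : (‖c‖ ^ 2 : ℝ) ≠ 0)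
  have hcc : c * (starRingEnd ℂ) c = ((‖c‖ ^ 2 : ℝ) : ℂ) := by
    rw [Complex.mul_conj, Complex.normSq_eq_norm_sq]
  have hc' : (starRingEnd ℂ) c ≠ 0 := by simpa using hc
  have hAi : Integrable (av F n) μ :=
    Integrable.of_bound (continuous_av F n).aestronglyMeasurable 1
      (Filter.Eventually.of_forall fun x => norm_av_le F n x)
  have hAci : Integrable (fun x => (starRingEnd ℂ) (av F n x)) μ := by
    refine Integrable.of_bound ?_ 1 (Filter.Eventually.of_forall fun x => ?_)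
    · exact (Complex.continuous_conj.comp (continuous_av F n)).aestronglyMeasurable
    · rw [Complex.norm_conj]; exact norm_av_le F n x
  have hconj : ∫ x, (starRingEnd ℂ) (av F n x) ∂μ = (starRingEnd ℂ) c := by
    rw [integral_conj, hA]
  have hprod : ∀ x, av F n x * (starRingEnd ℂ) (av F n x) =
      ((F.card : ℂ) ^ 2)⁻¹ * ∑ i ∈ F, ∑ j ∈ F, (fourier (n i - n j) x : ℂ) := by
    intro x
    unfold av
    rw [map_mul, map_inv₀, Complex.conj_natCast, map_sum]
    have : (∑ i ∈ F, (fourier (n i) x : ℂ)) * (∑ j ∈ F, (starRingEnd ℂ) (fourier (n j) x : ℂ)) =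
        ∑ i ∈ F, ∑ j ∈ F, (fourier (n i - n j) x : ℂ) := by
      rw [sum_mul_sum]
      refine sum_congr rfl fun i _ => sum_congr rfl fun j _ => ?_
      rw [sub_eq_add_neg, fourier_add, fourier_neg]
    rw [← this]
    ring
  have hpi : ∫ x, av F n x * (starRingEnd ℂ) (av F n x) ∂μ =
      ((F.card : ℂ) ^ 2)⁻¹ * ∑ i ∈ F, ∑ j ∈ F, ∫ x, (fourier (n i - n j) x : ℂ) ∂μ := by
    simp_rw [hprod]
    rw [integral_const_mul, integral_finset_sum _ fun i _ => integrable_finset_sum _ fun j _ => hint _]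
    congr 1
    exact sum_congr rfl fun i _ => integral_finset_sum _ fun j _ => hint _
  have hpint : Integrable (fun x => av F n x * (starRingEnd ℂ) (av F n x)) μ := by
    refine Integrable.of_bound ?_ 1 (Filter.Eventually.of_forall fun x => ?_)
    · exact ((continuous_av F n).mul
        (Complex.continuous_conj.comp (continuous_av F n))).aestronglyMeasurable
    · rw [norm_mul, Complex.norm_conj]
      exact mul_le_one₀ (norm_av_le F n x) (norm_nonneg _) (norm_av_le F n x)
  rw [← integral_complex_ofReal]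
  have hpt : ∀ x, ((‖av F n x / c - 1‖ ^ 2 : ℝ) : ℂ) =
      av F n x * (starRingEnd ℂ) (av F n x) / ((‖c‖ ^ 2 : ℝ) : ℂ) - av F n x / c
        - (starRingEnd ℂ) (av F n x) / (starRingEnd ℂ) c + 1 := by
    intro x
    rw [← Complex.normSq_eq_norm_sq, ← Complex.mul_conj, map_sub, map_div₀, map_one, ← hcc]
    field_simp
    ring
  simp_rw [hpt]
  rw [integral_add, integral_sub, integral_sub, integral_div, integral_div, integral_div, hpi, hA,
    hconj]
  · simp only [integral_const, probReal_univ, one_smul]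
    rw [div_self hc, div_self hc']
    ring
  · exact hpint.div_const _
  · exact hAi.div_const _
  · exact (hpint.div_const _).sub (hAi.div_const _)
  · exact hAci.div_const _
  · exact ((hpint.div_const _).sub (hAi.div_const _)).sub (hAci.div_const _)
  · exact integrable_const _

theorem cheb (μ : Measure (AddCircle (1 : ℝ))) [IsProbabilityMeasure μ]
    (F : Finset ι) (n : ι → ℤ) (c : ℂ) (hc : c ≠ 0) (δ : ℝ) (hδ : 0 < δ) :
    μ.real {x | δ * ‖c‖ ≤ ‖av F n x - c‖} ≤
      (δ ^ 2)⁻¹ * ∫ x, ‖av F n x / c - 1‖ ^ 2 ∂μ := by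
  have hc0 : 0 < ‖c‖ := norm_pos_iff.2 hc
  have hi : Integrable (fun x => ‖av F n x / c - 1‖ ^ 2) μ := by
    have hb : ∀ x, ‖av F n x / c - 1‖ ≤ ‖c‖⁻¹ + 1 := by
      intro x
      refine (norm_sub_le _ _).trans ?_
      rw [norm_div, norm_one]
      gcongr
      rw [div_eq_mul_inv]
      exact mul_le_of_le_one_left (by positivity) (norm_av_le F n x)
    refine Integrable.of_bound ?_ ((‖c‖⁻¹ + 1) ^ 2) (Filter.Eventually.of_forall fun x => ?_)
    · exact ((((continuous_av F n).div_const _).sub continuous_const).norm.pow 2).aestronglyMeasurable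
    · rw [norm_pow, norm_norm]
      exact pow_le_pow_left₀ (norm_nonneg _) (hb x) 2
  have h := mul_meas_ge_le_integral_of_nonneg (μ := μ)
    (f := fun x => ‖av F n x / c - 1‖ ^ 2) (Filter.Eventually.of_forall fun x => by positivity)
    hi (δ ^ 2)
  have hset : {x | δ * ‖c‖ ≤ ‖av F n x - c‖} ⊆ {x | δ ^ 2 ≤ ‖av F n x / c - 1‖ ^ 2} := by
    intro x hx
    simp only [Set.mem_setOf_eq] at hx ⊢
    have : ‖av F n x / c - 1‖ = ‖av F n x - c‖ / ‖c‖ := by
      rw [← norm_div, sub_div, div_self hc]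
    rw [this]
    refine pow_le_pow_left₀ hδ.le ?_ 2
    rw [le_div_iff₀ hc0]
    exact hx
  have h2 : μ.real {x | δ * ‖c‖ ≤ ‖av F n x - c‖} ≤
      μ.real {x | δ ^ 2 ≤ ‖av F n x / c - 1‖ ^ 2} := measureReal_mono hset
  have h3 : 0 < δ ^ 2 := by positivity
  rw [inv_mul_eq_div, le_div_iff₀ h3, mul_comm]
  exact (mul_le_mul_of_nonneg_left h2 h3.le).trans h

end Pool.Agent.Helper50.MX
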