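import Pool.Agent.Helper87.MX.Fr
import Pool.Agent.Helper50.MX.Var

/-!
# VA, CH: the variance identity and Chebyshev's inequality
-/

set_option autoImplicit false

open MeasureTheory Finset

namespace Pool.Agent.Helper50.MX

open Pool.Agent.Helper87.MX

theorem fourier_nsmul (g : ℕ) (n : ℤ) (x : Tor) :
    (fourier n (g • x) : ℂ) = fourier ((g : ℤ) * n) x := by
  rw [fourier_apply, fourier_apply]
  congr 2
  rw [← natCast_zsmul, smul_smul, mul_comm]

theorem cf_mul {g : ℕ} {μ : Measure Tor} (hg : Inv g μ) (n : ℤ) : cf μ (g * n) = cf μ n := by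
  unfold cf
  have h : ∫ x, (fourier n x : ℂ) ∂(μ.map fun x : Tor => g • x) =
      ∫ x : Tor, (fourier n (g • x) : ℂ) ∂μ :=
    integral_map hg.measurable.aemeasurable
      (fourier n : C(Tor, ℂ)).continuous.aestronglyMeasurable
  rw [hg.map_eq] at h
  rw [h]
  simp_rw [fourier_nsmul]

theorem cf_su {μ : Measure Tor} (h2 : Inv 2 μ) (h3 : Inv 3 μ) (k : ℕ) (p : ℕ × ℕ) :
    cf μ ((k * su p : ℕ) : ℤ) = cf μ k := by
  obtain ⟨a, b⟩ := p
  have key2 : ∀ (a : ℕ) (n : ℤ), cf μ (2 ^ a * n) = cf μ n := by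
    intro a
    induction a with
    | zero => intro n; simp
    | succ a ih =>
      intro n
      have : (2 : ℤ) ^ (a + 1) * n = ((2 : ℕ) : ℤ) * (2 ^ a * n) := by push_cast; ring
      rw [this, cf_mul h2, ih]
  have key3 : ∀ (b : ℕ) (n : ℤ), cf μ (3 ^ b * n) = cf μ n := by
    intro b
    induction b with
    | zero => intro n; simp
    | succ b ih =>
      intro n
      have : (3 : ℤ) ^ (b + 1) * n = ((3 : ℕ) : ℤ) * (3 ^ b * n) := by push_cast; ring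
      rw [this, cf_mul h3, ih]
  have : ((k * su (a, b) : ℕ) : ℤ) = 2 ^ a * (3 ^ b * k) := by
    simp only [su]
    push_cast
    ring
  rw [this, key2, key3]

theorem wav_eq (k : ℕ) (F : Finset (ℕ × ℕ)) (x : Tor) :
    wav k F x = av F (fun p => ((k * su p : ℕ) : ℤ)) x := by
  unfold wav av
  rw [div_eq_inv_mul]

theorem var_eq (μ : Measure Tor) (hμ : IsProbabilityMeasure μ) (h2 : Inv 2 μ) (h3 : Inv 3 μ)
    (k : ℕ) (F : Finset (ℕ × ℕ)) (hF : F.Nonempty) (hc : cf μ k ≠ 0) :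
    ∫ x, ‖av F (fun p => ((k * su p : ℕ) : ℤ)) x / cf μ k - 1‖ ^ 2 ∂μ = var (cf μ) k F := by
  have h := integral_norm_sq μ F hF (fun p => ((k * su p : ℕ) : ℤ)) (cf μ k) hc
    (fun p _ => cf_su h2 h3 k p)
  have hre := congrArg Complex.re h
  rw [Complex.ofReal_re] at hre
  rw [hre]
  unfold var
  have hint : ∀ p q : ℕ × ℕ, ∫ x, (fourier (((k * su p : ℕ) : ℤ) - ((k * su q : ℕ) : ℤ)) x : ℂ) ∂μ =
      cf μ (k * ((su p : ℤ) - su q)) := by
    intro p q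
    unfold cf
    congr 3
    push_cast
    ring_nf
  simp_rw [hint]
  have hcast : ((F.card : ℂ) ^ 2)⁻¹ * (∑ i ∈ F, ∑ j ∈ F, cf μ (k * ((su i : ℤ) - su j))) /
      ((‖cf μ k‖ ^ 2 : ℝ) : ℂ) - 1 =
      ((((F.card : ℝ) ^ 2 * ‖cf μ k‖ ^ 2)⁻¹ : ℝ) : ℂ) *
        (∑ i ∈ F, ∑ j ∈ F, cf μ (k * ((su i : ℤ) - su j))) - 1 := by
    push_cast
    rw [mul_inv]
    ring
  rw [hcast, Complex.sub_re, Complex.re_ofReal_mul, Complex.one_re, Complex.re_sum]
  simp_rw [Complex.re_sum]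
  rw [div_eq_inv_mul]

theorem s_VA : S_VA := by
  intro μ hμ h2 h3 k F hF hc
  have hc0 : 0 < ‖cf μ k‖ := norm_pos_iff.2 hc
  rw [← var_eq μ hμ h2 h3 k F hF hc, ← integral_const_mul]
  congr 1
  ext x
  rw [wav_eq, ← mul_pow, ← norm_mul, mul_sub, mul_one, mul_div_cancel₀ _ hc]

theorem s_CH : S_CH := by
  intro μ hμ h2 h3 k F hF hc
  have h := cheb μ F (fun p => ((k * su p : ℕ) : ℤ)) (cf μ k) hc (1 / 8) (by norm_num)
  rw [var_eq μ hμ h2 h3 k F hF hc] at h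
  have hset : {x | ‖cf μ k‖ / 8 ≤ ‖wav k F x - cf μ k‖} =
      {x | 1 / 8 * ‖cf μ k‖ ≤ ‖av F (fun p => ((k * su p : ℕ) : ℤ)) x - cf μ k‖} := by
    ext x
    simp only [Set.mem_setOf_eq]
    rw [wav_eq]
    constructor <;> intro h <;> linarith
  rw [hset]
  refine h.trans (le_of_eq ?_)
  norm_num

end Pool.Agent.Helper50.MX
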