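import Pool.Agent.Helper87.MX.Fr

/-!
# W2b: `- log μ(B(x, r))` is integrable
-/

set_option autoImplicit false

open MeasureTheory Finset

namespace Pool.Agent.Helper50.MX

open Pool.Agent.Helper87.MX

theorem measurable_ball (μ : Measure Tor) [IsProbabilityMeasure μ] (r : ℝ) :
    Measurable fun x : Tor => μ (Metric.closedBall x r) := by
  have hs : MeasurableSet {p : Tor × Tor | dist p.2 p.1 ≤ r} :=
    (isClosed_le (continuous_snd.dist continuous_fst) continuous_const).measurableSet
  have h := measurable_measure_prodMk_left (ν := μ) hs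
  exact h

theorem lintegral_biUnion_le {ι : Type*} (t : Finset ι) {μ : Measure Tor} (s : ι → Set Tor)
    (f : Tor → ENNReal) : ∫⁻ x in ⋃ z ∈ t, s z, f x ∂μ ≤ ∑ z ∈ t, ∫⁻ x in s z, f x ∂μ := by
  classical
  induction t using Finset.induction_on with
  | empty => simp
  | insert a t ha ih =>
    rw [Finset.set_biUnion_insert, sum_insert ha]
    exact (lintegral_union_le _ _ _).trans (add_le_add le_rfl ih)

theorem lintegral_inv_lt (μ : Measure Tor) [IsProbabilityMeasure μ] (r : ℝ) (hr : 0 < r) :
    ∫⁻ x, (μ (Metric.closedBall x r))⁻¹ ∂μ < ⊤ := by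
  obtain ⟨t, -, hc⟩ := (isCompact_univ (X := Tor)).elim_nhds_subcover
    (fun z => Metric.closedBall z (r / 2)) (fun z _ => Metric.closedBall_mem_nhds z (by linarith))
  calc ∫⁻ x, (μ (Metric.closedBall x r))⁻¹ ∂μ
      = ∫⁻ x in Set.univ, (μ (Metric.closedBall x r))⁻¹ ∂μ := by rw [setLIntegral_univ]
    _ ≤ ∫⁻ x in ⋃ z ∈ t, Metric.closedBall (z : Tor) (r / 2),
          (μ (Metric.closedBall x r))⁻¹ ∂μ := lintegral_mono_set hc
    _ ≤ ∑ z ∈ t, ∫⁻ x in Metric.closedBall (z : Tor) (r / 2),
          (μ (Metric.closedBall x r))⁻¹ ∂μ := by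
        exact lintegral_biUnion_le t _ _
    _ ≤ ∑ z ∈ t, 1 := by
        refine sum_le_sum fun z _ => ?_
        calc ∫⁻ x in Metric.closedBall (z : Tor) (r / 2), (μ (Metric.closedBall x r))⁻¹ ∂μ
            ≤ ∫⁻ x in Metric.closedBall (z : Tor) (r / 2),
                (μ (Metric.closedBall (z : Tor) (r / 2)))⁻¹ ∂μ := by
              refine setLIntegral_mono' Metric.isClosed_closedBall.measurableSet fun x hx => ?_
              refine ENNReal.inv_le_inv.2 (measure_mono ?_)
              intro y hy
              rw [Metric.mem_closedBall] at hx hy ⊢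
              calc dist y x ≤ dist y z + dist z x := dist_triangle _ _ _
                _ ≤ r / 2 + r / 2 := by
                  gcongr
                  rw [dist_comm]; exact hx
                _ = r := by ring
          _ ≤ 1 := by
              rw [setLIntegral_const, mul_comm]
              exact ENNReal.mul_inv_le_one _
    _ < ⊤ := by simp

theorem s_W2b : S_W2b := by
  intro μ hμ r hr
  have h1 : Integrable (fun x : Tor => ((μ (Metric.closedBall x r))⁻¹).toReal) μ :=
    integrable_toReal_of_lintegral_ne_top (measurable_ball μ r).inv.aemeasurable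
      (lintegral_inv_lt μ r hr).ne
  refine h1.mono' ?_ (Filter.Eventually.of_forall fun x => ?_)
  · exact ((Real.measurable_log.comp (measurable_ball μ r).ennreal_toReal).neg).aestronglyMeasurable
  · rw [ENNReal.toReal_inv]
    change ‖-Real.log (μ.real (Metric.closedBall x r))‖ ≤ (μ.real (Metric.closedBall x r))⁻¹
    have h0 : 0 ≤ μ.real (Metric.closedBall x r) := measureReal_nonneg
    have h1 : μ.real (Metric.closedBall x r) ≤ 1 := measureReal_le_one
    rcases h0.eq_or_lt with h | h
    · rw [← h]; simp
    · rw [Real.norm_of_nonneg (by simpa using Real.log_nonpos h0 h1), ← Real.log_inv]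
      have := Real.log_le_sub_one_of_pos (inv_pos.2 h)
      linarith

end Pool.Agent.Helper50.MX
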